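import Pool.Agent.H55.LF.Comm

/-!
# Over the integers the modulus can be bounded
-/

set_option autoImplicit false

open Finset

namespace Pool.Agent.H55.LF

open Pool.Agent.TH282.LF

/-- Some integral combination of the coefficients is `1` modulo `c`. -/
lemma exists_bezout {h : ℕ} (f : Fin h → ℤ) (c : ℕ)
    (h3 : ∀ p : ℕ, p.Prime → p ∣ c → ∃ i, ¬ (p : ℤ) ∣ f i) :
    ∃ e : Fin h → ℤ, (c : ℤ) ∣ ∑ i, e i * f i - 1 := by
  have htop : Ideal.span {(c : ℤ)} ⊔ Ideal.span (Set.range f) = ⊤ := by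
    by_contra hne
    obtain ⟨M, hM, hle⟩ := Ideal.exists_le_maximal _ hne
    obtain ⟨q, rfl⟩ : ∃ a : ℤ, M = Ideal.span {a} := (IsPrincipalIdealRing.principal M).1
    have hcM : q ∣ (c : ℤ) := by
      rw [← Ideal.mem_span_singleton]
      exact hle (Ideal.mem_sup_left (Ideal.mem_span_singleton_self _))
    have hfM : ∀ i, q ∣ f i := by
      intro i
      rw [← Ideal.mem_span_singleton]
      exact hle (Ideal.mem_sup_right (Ideal.subset_span ⟨i, rfl⟩))
    have hq1 : q.natAbs ≠ 1 := by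
      intro h1
      apply hM.ne_top
      rw [Ideal.span_singleton_eq_top]
      exact Int.isUnit_iff_natAbs_eq.2 h1
    obtain ⟨p, hp, hpq⟩ := Nat.exists_prime_and_dvd hq1
    obtain ⟨i, hi⟩ := h3 p hp (hpq.trans (Int.natAbs_dvd_natAbs.2 hcM |>.trans (by simp)))
    apply hi
    exact (Int.natCast_dvd.2 hpq).trans (hfM i)
  obtain ⟨a, ha, b, hb, hab⟩ := Submodule.mem_sup.1 ((Ideal.eq_top_iff_one _).1 htop)
  obtain ⟨e, rfl⟩ := (Ideal.mem_span_range_iff_exists_fun).1 hb
  refine ⟨e, ?_⟩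
  rw [Ideal.mem_span_singleton] at ha
  have : ∑ i, e i * f i - 1 = -a := by rw [← hab]; ring
  rw [this]
  exact (dvd_neg).2 ha

lemma natAbs_classVec_le {h l : ℕ} (g : Fin l → ℤ) (P : Fin l → Fin h × Fin l) (t : Fin l)
    (i : Fin h) : (classVec g P t i).natAbs ≤ ∑ j, (g j).natAbs := by
  unfold classVec
  refine (Int.natAbs_sum_le _ _).trans ?_
  exact Finset.sum_le_sum_of_subset (Finset.filter_subset _ _)

/-- **The modulus is bounded.** -/
theorem closedInt_bound {h l : ℕ} (f : Fin h → ℤ) (g : Fin l → ℤ) (P : Fin l → Fin h × Fin l)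
    (H : ∃ c : ℕ, 2 ≤ c ∧ ClosedInt f g P c) :
    ∃ c : ℕ, 2 ≤ c ∧ c ≤ 2 * (∑ i, (f i).natAbs) * (1 + ∑ j, (g j).natAbs) ∧
      ClosedInt f g P c := by
  classical
  obtain ⟨c, hc, h1, h2⟩ := H
  set A := ∑ i, (f i).natAbs with hA
  set B := ∑ j, (g j).natAbs with hB
  have hfA : ∀ i, (f i).natAbs ≤ A := fun i =>
    Finset.single_le_sum (f := fun i => (f i).natAbs) (fun _ _ => Nat.zero_le _)
      (Finset.mem_univ i)
  obtain ⟨i₀, hi₀⟩ : ∃ i, f i ≠ 0 := by
    obtain ⟨p, hp, hpc⟩ := Nat.exists_prime_and_dvd (n := c) (by omega)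
    obtain ⟨i, hi⟩ := h1 p hp hpc
    exact ⟨i, fun h0 => hi (by rw [h0]; exact dvd_zero _)⟩
  have hA1 : 1 ≤ A := (Nat.one_le_iff_ne_zero.2 (Int.natAbs_ne_zero.2 hi₀)).trans (hfA i₀)
  by_cases hcase : ∃ t, (∃ i, classVec g P t i ≠ 0) ∧
      ∀ i j, f i * classVec g P t j = f j * classVec g P t i
  · obtain ⟨t, ⟨i₁, hi₁⟩, hmin⟩ := hcase
    refine ⟨c, hc, ?_, h1, h2⟩
    obtain ⟨e, he⟩ := exists_bezout f c h1
    have h3 : ∀ i, (c : ℤ) ∣ classVec g P t i := by
      apply h2 t
      refine ⟨∑ j, e j * classVec g P t j, fun i => ?_⟩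
      have h4 : classVec g P t i - (∑ j, e j * classVec g P t j) * f i =
          -(∑ j, e j * f j - 1) * classVec g P t i := by
        have : (∑ j, e j * classVec g P t j) * f i = (∑ j, e j * f j) * classVec g P t i := by
          rw [Finset.sum_mul, Finset.sum_mul]
          refine Finset.sum_congr rfl fun j _ => ?_
          rw [mul_assoc, mul_comm (classVec g P t j) (f i), hmin i j, mul_assoc]
        rw [this]
        ring
      rw [h4]
      exact Dvd.dvd.mul_right ((dvd_neg).2 he) _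
    have h5 : c ≤ (classVec g P t i₁).natAbs :=
      Nat.le_of_dvd (Nat.pos_of_ne_zero (Int.natAbs_ne_zero.2 hi₁)) (Int.natCast_dvd.1 (h3 i₁))
    have h6 := natAbs_classVec_le g P t i₁
    have h7 : 1 * (1 + B) ≤ 2 * A * (1 + B) := Nat.mul_le_mul_right _ (by omega)
    omega
  · push Not at hcase
    have hN : A * (1 + B) ≠ 0 := Nat.mul_ne_zero (by omega) (by omega)
    obtain ⟨p, hp, hp1, hp2⟩ := Nat.exists_prime_lt_and_le_two_mul _ hN
    refine ⟨p, hp.two_le, by rw [mul_assoc]; exact hp2, ?_, ?_⟩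
    · intro q hq hqp
      obtain rfl : q = p := (Nat.prime_dvd_prime_iff_eq hq hp).1 hqp
      refine ⟨i₀, fun hd => ?_⟩
      have h3 := Nat.le_of_dvd (Nat.pos_of_ne_zero (Int.natAbs_ne_zero.2 hi₀))
        (Int.natCast_dvd.1 hd)
      have h4 := hfA i₀
      have h5 : A * 1 ≤ A * (1 + B) := Nat.mul_le_mul_left _ (by omega)
      omega
    · rintro t ⟨x, hx⟩ i
      by_cases ht : ∃ i, classVec g P t i ≠ 0
      · exfalso
        obtain ⟨i, j, hij⟩ := hcase t ht
        have hne : i ≠ j := fun h => hij (by rw [h])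
        have hd : (p : ℤ) ∣ f i * classVec g P t j - f j * classVec g P t i := by
          have : f i * classVec g P t j - f j * classVec g P t i =
              f i * (classVec g P t j - x * f j) - f j * (classVec g P t i - x * f i) := by ring
          rw [this]
          exact dvd_sub (Dvd.dvd.mul_left (hx j) _) (Dvd.dvd.mul_left (hx i) _)
        have h3 := Nat.le_of_dvd (Nat.pos_of_ne_zero (Int.natAbs_ne_zero.2 (sub_ne_zero.2 hij)))
          (Int.natCast_dvd.1 hd)
        have h4 : (f i * classVec g P t j - f j * classVec g P t i).natAbs ≤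
            (f i).natAbs * B + (f j).natAbs * B := by
          refine (Int.natAbs_sub_le _ _).trans ?_
          rw [Int.natAbs_mul, Int.natAbs_mul]
          exact add_le_add (Nat.mul_le_mul_left _ (natAbs_classVec_le g P t j))
            (Nat.mul_le_mul_left _ (natAbs_classVec_le g P t i))
        have h5 : (f i).natAbs + (f j).natAbs ≤ A := by
          rw [hA, ← Finset.sum_pair (f := fun i => (f i).natAbs) hne]
          exact Finset.sum_le_sum_of_subset (Finset.subset_univ _)
        have h6 : ((f i).natAbs + (f j).natAbs) * B ≤ A * (1 + B) :=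
          Nat.mul_le_mul h5 (by omega)
        rw [add_mul] at h6
        omega
      · push Not at ht
        rw [ht i]
        exact dvd_zero _

end Pool.Agent.H55.LF
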