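import Pool.Agent.H55.LF.Crit

/-!
# The patterns that can be avoided over commutative rings and over the integers
-/

set_option autoImplicit false

open Finset

namespace Pool.Agent.H55.LF

open Pool.Agent.TH282.LF

universe u

/-- A closed ideal gives a closed pattern. -/
theorem closed_of_ideal {R : Type u} [CommRing R] {h l : ℕ} (f : Fin h → R) (g : Fin l → R)
    (P : Fin l → Fin h × Fin l) (I : Ideal R) (hI : I ≠ ⊤) (hfin : Finite (R ⧸ I))
    (hf : I ⊔ Ideal.span (Set.range f) = ⊤)
    (hcl : ∀ t, (∃ x, ∀ i, classVec g P t i - x * f i ∈ I) → ∀ i, classVec g P t i ∈ I) :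
    Closed R f g P := by
  classical
  obtain ⟨a, ha, b, hb, hab⟩ := Submodule.mem_sup.1 ((Ideal.eq_top_iff_one _).1 hf)
  obtain ⟨e, rfl⟩ := (Ideal.mem_span_range_iff_exists_fun).1 hb
  have he : (Ideal.Quotient.mk I) (∑ i, e i * f i) = 1 := by
    rw [← map_one (Ideal.Quotient.mk I), ← hab, map_add, Ideal.Quotient.eq_zero_iff_mem.2 ha,
      zero_add]
  have hsm : ∀ (r : R) (x : R), r • (Ideal.Quotient.mk I x) = Ideal.Quotient.mk I (r * x) :=
    fun r x => rfl
  refine ⟨R ⧸ I, inferInstance, inferInstance, hfin, ⊥, ?_, ?_, ?_⟩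
  · intro h0
    apply hI
    rw [Ideal.eq_top_iff_one]
    have h1 : (Ideal.Quotient.mk I 1) ∈ (⊥ : AddSubgroup (R ⧸ I)) := by rw [h0]; trivial
    rw [AddSubgroup.mem_bot] at h1
    exact Ideal.Quotient.eq_zero_iff_mem.1 h1
  · intro u
    obtain ⟨r, rfl⟩ := Ideal.Quotient.mk_surjective u
    refine ⟨fun i => Ideal.Quotient.mk I (e i * r), ?_⟩
    simp only [hsm]
    rw [← map_sum]
    have : ∑ i, f i * (e i * r) = (∑ i, e i * f i) * r := by
      rw [Finset.sum_mul]
      exact Finset.sum_congr rfl fun i _ => by ring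
    rw [this, map_mul, he, one_mul]
  · intro t ht
    have h1 : ∀ i, classVec g P t i ∈ I := by
      apply hcl t
      refine ⟨∑ j, classVec g P t j * e j, fun i => ?_⟩
      have h2 := ht (fun j => Ideal.Quotient.mk I ((if j = i then 1 else 0) - f i * e j)) ?_
      · rw [AddSubgroup.mem_bot] at h2
        simp only [hsm] at h2
        rw [← map_sum, Ideal.Quotient.eq_zero_iff_mem] at h2
        have h3 : ∑ j, classVec g P t j * ((if j = i then 1 else 0) - f i * e j) =
            classVec g P t i - (∑ j, classVec g P t j * e j) * f i := by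
          simp only [mul_sub, Finset.sum_sub_distrib, mul_ite, mul_one, mul_zero,
            Finset.sum_ite_eq', Finset.mem_univ, if_true]
          rw [Finset.sum_mul]
          congr 1
          exact Finset.sum_congr rfl fun j _ => by ring
        rwa [h3] at h2
      · simp only [hsm]
        rw [← map_sum]
        have h3 : ∑ j, f j * ((if j = i then 1 else 0) - f i * e j) =
            f i - f i * (∑ j, e j * f j) := by
          simp only [mul_sub, Finset.sum_sub_distrib, mul_ite, mul_one, mul_zero,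
            Finset.sum_ite_eq', Finset.mem_univ, if_true]
          rw [Finset.mul_sum]
          congr 1
          exact Finset.sum_congr rfl fun j _ => by ring
        rw [h3, map_sub, map_mul, he, mul_one, sub_self]
    intro x
    rw [AddSubgroup.mem_bot]
    refine Finset.sum_eq_zero fun i _ => ?_
    obtain ⟨r, hr⟩ := Ideal.Quotient.mk_surjective (x i)
    rw [← hr, hsm, Ideal.Quotient.eq_zero_iff_mem]
    exact I.mul_mem_right _ (h1 i)

/-- **Commutative rings.** -/
theorem avoidable_iff_ideal {R : Type u} [CommRing R] {h l : ℕ} (f : Fin h → R) (g : Fin l → R)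
    (hl : 0 < l) (P : Fin l → Fin h × Fin l) : Avoidable R f g P ↔
      ∃ I : Ideal R, I ≠ ⊤ ∧ Finite (R ⧸ I) ∧ I ⊔ Ideal.span (Set.range f) = ⊤ ∧
        ∀ t, (∃ x, ∀ i, classVec g P t i - x * f i ∈ I) → ∀ i, classVec g P t i ∈ I :=
  ⟨closed_of_avoidable f g hl P, fun ⟨I, h1, h2, h3, h4⟩ =>
    avoidable_of_closed' f g P (closed_of_ideal f g P I h1 h2 h3 h4)⟩

/-- The condition on an integer `c` which makes a pattern avoidable over the integers. -/
def ClosedInt {h l : ℕ} (f : Fin h → ℤ) (g : Fin l → ℤ) (P : Fin l → Fin h × Fin l) (c : ℕ) :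
    Prop :=
  (∀ p : ℕ, p.Prime → p ∣ c → ∃ i, ¬ (p : ℤ) ∣ f i) ∧
    ∀ t, (∃ x : ℤ, ∀ i, (c : ℤ) ∣ classVec g P t i - x * f i) →
      ∀ i, (c : ℤ) ∣ classVec g P t i

/-- **The integers.** -/
theorem avoidable_iff_int {h l : ℕ} (f : Fin h → ℤ) (g : Fin l → ℤ)
    (hl : 0 < l) (P : Fin l → Fin h × Fin l) : Avoidable ℤ f g P ↔
      ∃ c : ℕ, 2 ≤ c ∧ ClosedInt f g P c := by
  rw [avoidable_iff_ideal f g hl P]
  constructor
  · rintro ⟨I, h1, h2, h3, h4⟩
    obtain ⟨a, rfl⟩ : ∃ a : ℤ, I = Ideal.span {a} := (IsPrincipalIdealRing.principal I).1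
    have ha : a ≠ 0 := by
      rintro rfl
      rw [Ideal.span_singleton_zero] at h2
      have : Finite ℤ := Finite.of_injective (Ideal.Quotient.mk (⊥ : Ideal ℤ))
        (by
          rw [injective_iff_map_eq_zero]
          intro x hx
          rw [Ideal.Quotient.eq_zero_iff_mem] at hx
          simpa using hx)
      exact not_finite ℤ
    have hmem : ∀ x : ℤ, x ∈ Ideal.span {a} ↔ ((a.natAbs : ℕ) : ℤ) ∣ x := by
      intro x
      rw [Ideal.mem_span_singleton, Int.natAbs_dvd]
    refine ⟨a.natAbs, ?_, ?_, ?_⟩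
    · by_contra hlt
      have h5 : a.natAbs ≠ 0 := Int.natAbs_ne_zero.2 ha
      have h6 : a.natAbs = 1 := by omega
      apply h1
      rw [Ideal.eq_top_iff_one, hmem, h6]
      simp
    · intro p hp hpa
      by_contra hno
      push Not at hno
      have h5 : Ideal.span {a} ⊔ Ideal.span (Set.range f) ≤ Ideal.span {(p : ℤ)} := by
        refine sup_le ?_ ?_
        · rw [Ideal.span_singleton_le_span_singleton]
          exact Int.natCast_dvd.2 hpa
        · rw [Ideal.span_le]
          rintro _ ⟨i, rfl⟩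
          exact Ideal.mem_span_singleton.2 (hno i)
      rw [h3, top_le_iff, Ideal.eq_top_iff_one, Ideal.mem_span_singleton] at h5
      have h6 : (p : ℤ) ∣ ((1 : ℕ) : ℤ) := by simpa using h5
      exact hp.one_lt.ne' (Nat.dvd_one.1 (Int.natCast_dvd_natCast.1 h6))
    · intro t ht i
      rw [← hmem]
      apply h4 t
      obtain ⟨x, hx⟩ := ht
      exact ⟨x, fun i => (hmem _).2 (hx i)⟩
  · rintro ⟨c, hc, h3, h4⟩
    have : NeZero c := ⟨by omega⟩
    refine ⟨Ideal.span {(c : ℤ)}, ?_, ?_, ?_, ?_⟩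
    · intro h0
      rw [Ideal.eq_top_iff_one, Ideal.mem_span_singleton] at h0
      have h6 : (c : ℤ) ∣ ((1 : ℕ) : ℤ) := by simpa using h0
      have := Nat.dvd_one.1 (Int.natCast_dvd_natCast.1 h6)
      omega
    · exact Finite.of_equiv (ZMod c) (Int.quotientSpanNatEquivZMod c).symm.toEquiv
    · by_contra hne
      obtain ⟨M, hM, hle⟩ := Ideal.exists_le_maximal _ hne
      obtain ⟨q, rfl⟩ : ∃ a : ℤ, M = Ideal.span {a} := (IsPrincipalIdealRing.principal M).1
      have hcM : q ∣ (c : ℤ) := by
        rw [← Ideal.mem_span_singleton]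
        exact hle (Ideal.mem_sup_left (Ideal.mem_span_singleton_self _))
      have hfM : ∀ i, q ∣ f i := by
        intro i
        rw [← Ideal.mem_span_singleton]
        exact hle (Ideal.mem_sup_right (Ideal.subset_span ⟨i, rfl⟩))
      have hq1 : q.natAbs ≠ 1 := by
        intro h1
        apply hM.ne_top
        rw [Ideal.span_singleton_eq_top]
        exact Int.isUnit_iff_natAbs_eq.2 h1
      obtain ⟨p, hp, hpq⟩ := Nat.exists_prime_and_dvd hq1
      obtain ⟨i, hi⟩ := h3 p hp (hpq.trans (Int.natAbs_dvd_natAbs.2 hcM |>.trans (by simp)))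
      apply hi
      exact (Int.natCast_dvd.2 hpq).trans (hfM i)
    · intro t ht i
      rw [Ideal.mem_span_singleton]
      apply h4 t
      obtain ⟨x, hx⟩ := ht
      exact ⟨x, fun i => Ideal.mem_span_singleton.1 (hx i)⟩

end Pool.Agent.H55.LF
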