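import Pool.Agent.H55.LF.Small
import Pool.Graph.R_seed8.TH282.LF.Dual

/-!
# The patterns that can be avoided
-/

set_option autoImplicit false

open Finset

namespace Pool.Agent.H55.LF

open Pool.Agent.TH282.LF

universe u

/-- The additive map `x ↦ ∑ i, c i • x i`. -/
def lin {R : Type u} [Ring R] {h : ℕ} (c : Fin h → R) (U : Type u) [AddCommGroup U] [Module R U] :
    (Fin h → U) →+ U where
  toFun x := ∑ i, c i • x i
  map_zero' := by simp
  map_add' x y := by simp [smul_add, Finset.sum_add_distrib]

lemma lin_apply {R : Type u} [Ring R] {h : ℕ} (c : Fin h → R) {U : Type u} [AddCommGroup U]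
    [Module R U] (x : Fin h → U) : lin c U x = ∑ i, c i • x i := rfl

/-- The pattern `P` is closed: there are a finite module `U` on which the form `f` is surjective
and a proper subgroup `K` of `U` such that every class form which maps the zeros of `f` into `K`
has all its values in `K`. -/
def Closed (R : Type u) [Ring R] {h l : ℕ} (f : Fin h → R) (g : Fin l → R)
    (P : Fin l → Fin h × Fin l) : Prop :=
  ∃ (U : Type u) (_ : AddCommGroup U) (_ : Module R U) (_ : Finite U) (K : AddSubgroup U),
    K ≠ ⊤ ∧ (∀ u : U, ∃ x : Fin h → U, ∑ i, f i • x i = u) ∧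
      ∀ t, (∀ x : Fin h → U, ∑ i, f i • x i = 0 → ∑ i, classVec g P t i • x i ∈ K) →
        ∀ x : Fin h → U, ∑ i, classVec g P t i • x i ∈ K

/-- An avoidable pattern is closed. -/
theorem closed'_of_avoidable {R : Type u} [Ring R] {h l : ℕ} (f : Fin h → R) (g : Fin l → R)
    (hl : 0 < l) (P : Fin l → Fin h × Fin l) (H : Avoidable R f g P) : Closed R f g P := by
  classical
  obtain ⟨U, _, _, _, a, z, ha, hz⟩ := H
  have hz' : ∀ u : Fin l → U, ∑ t, lin (classVec g P t) U (fun i => a t i (u t)) ≠ z := by
    intro u hu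
    apply hz u
    rw [sum_classVec]
    exact hu
  clear hz
  have ha' : ∀ t u, lin f U (fun i => a t i u) = u := ha
  by_contra hcon
  have hK : ∀ K : AddSubgroup U, K ≠ ⊤ → ∃ t, (∀ x : Fin h → U, lin f U x = 0 →
      lin (classVec g P t) U x ∈ K) ∧ ∃ x : Fin h → U, lin (classVec g P t) U x ∉ K := by
    intro K hK
    by_contra hno
    push Not at hno
    exact hcon ⟨U, inferInstance, inferInstance, inferInstance, K, hK,
      fun u => ⟨_, ha ⟨0, hl⟩ u⟩, hno⟩
  have key : ∀ n : ℕ, ∃ (T : Finset (Fin l)) (K : AddSubgroup U),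
      (∀ t ∈ T, ∀ x, lin (classVec g P t) U x ∈ K) ∧
      (∀ y ∈ K, ∃ v : Fin l → U, ∑ t ∈ T, lin (classVec g P t) U (fun i => a t i (v t)) = y) ∧
      (K = ⊤ ∨ n ≤ T.card) := by
    intro n
    induction n with
    | zero =>
      refine ⟨∅, ⊥, by simp, ?_, Or.inr (Nat.zero_le _)⟩
      intro y hy
      rw [AddSubgroup.mem_bot] at hy
      exact ⟨fun _ => 0, by simp [hy]⟩
    | succ n ih =>
      obtain ⟨T, K, h1, h2, h3⟩ := ih
      by_cases htop : K = ⊤
      · exact ⟨T, K, h1, h2, Or.inl htop⟩
      have h3' := h3.resolve_left htop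
      obtain ⟨t, ht, x₀, hx₀⟩ := hK K htop
      have htT : t ∉ T := fun h => hx₀ (h1 t h x₀)
      refine ⟨insert t T, K ⊔ (lin (classVec g P t) U).range, ?_, ?_, Or.inr ?_⟩
      · intro s hs x
        rcases Finset.mem_insert.1 hs with rfl | hs
        · exact AddSubgroup.mem_sup_right ⟨x, rfl⟩
        · exact AddSubgroup.mem_sup_left (h1 s hs x)
      · intro y hy
        obtain ⟨k, hk, w, ⟨x, rfl⟩, rfl⟩ := AddSubgroup.mem_sup.1 hy
        have hd : lin (classVec g P t) U (fun i => a t i (lin f U x)) -
            lin (classVec g P t) U x ∈ K := by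
          rw [← map_sub]
          apply ht
          rw [map_sub, ha', sub_self]
        obtain ⟨v, hv⟩ := h2 (k - (lin (classVec g P t) U (fun i => a t i (lin f U x)) -
            lin (classVec g P t) U x)) (K.sub_mem hk hd)
        refine ⟨Function.update v t (lin f U x), ?_⟩
        rw [Finset.sum_insert htT, Function.update_self]
        have : ∑ s ∈ T, lin (classVec g P s) U
            (fun i => a s i (Function.update v t (lin f U x) s)) =
            ∑ s ∈ T, lin (classVec g P s) U (fun i => a s i (v s)) := by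
          refine Finset.sum_congr rfl fun s hs => ?_
          have hst : s ≠ t := fun h => htT (by rwa [h] at hs)
          rw [Function.update_of_ne hst]
        rw [this, hv]
        abel
      · rw [Finset.card_insert_of_notMem htT]
        omega
  obtain ⟨T, K, h1, h2, h3⟩ := key (l + 1)
  have hc : T.card ≤ l := by
    have := Finset.card_le_univ T
    simpa using this
  have htop : K = ⊤ := h3.resolve_right (by omega)
  obtain ⟨v, hv⟩ := h2 (z - ∑ t ∈ Tᶜ, lin (classVec g P t) U (fun i => a t i 0))
    (by rw [htop]; trivial)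
  apply hz' (fun t => if t ∈ T then v t else 0)
  rw [← Finset.sum_add_sum_compl T]
  have e1 : ∑ t ∈ T, lin (classVec g P t) U (fun i => a t i (if t ∈ T then v t else 0)) =
      ∑ t ∈ T, lin (classVec g P t) U (fun i => a t i (v t)) :=
    Finset.sum_congr rfl fun t ht => by rw [if_pos ht]
  have e2 : ∑ t ∈ Tᶜ, lin (classVec g P t) U (fun i => a t i (if t ∈ T then v t else 0)) =
      ∑ t ∈ Tᶜ, lin (classVec g P t) U (fun i => a t i 0) :=
    Finset.sum_congr rfl fun t ht => by rw [if_neg (Finset.mem_compl.1 ht)]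
  rw [e1, e2, hv]
  abel

/-- A closed pattern is avoidable. -/
theorem avoidable_of_closed' {R : Type u} [Ring R] {h l : ℕ} (f : Fin h → R) (g : Fin l → R)
    (P : Fin l → Fin h × Fin l) (H : Closed R f g P) : Avoidable R f g P := by
  classical
  obtain ⟨U, _, _, _, K, hK, hf, hcl⟩ := H
  let q : U →+ U ⧸ K := QuotientAddGroup.mk' K
  have hq0 : ∀ u, q u = 0 ↔ u ∈ K := fun u => QuotientAddGroup.eq_zero_iff u
  have hqs : Function.Surjective q := QuotientAddGroup.mk'_surjective K
  let N : Fin l → AddSubgroup (U ⧸ K) := fun t =>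
    AddSubgroup.map (q.comp (lin (classVec g P t) U)) (lin f U).ker
  have hN : ∀ t, N t = ⊥ → ∀ x, q (lin (classVec g P t) U x) = 0 := by
    intro t ht x
    rw [hq0]
    apply hcl t
    intro y hy
    rw [← lin_apply, ← hq0]
    have : q (lin (classVec g P t) U y) ∈ N t := ⟨y, hy, rfl⟩
    rwa [ht, AddSubgroup.mem_bot] at this
  obtain ⟨ι, _, s, hs, hS⟩ := exists_small N (Finset.univ.filter fun t => N t ≠ ⊥)
    (fun t ht => (Finset.mem_filter.1 ht).2)
  have htop : (⊤ : AddSubgroup (U ⧸ K)) ≠ ⊥ := by
    intro h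
    apply hK
    rw [eq_top_iff]
    intro u _
    rw [← hq0]
    have : q u ∈ (⊤ : AddSubgroup (U ⧸ K)) := trivial
    rwa [h, AddSubgroup.mem_bot] at this
  obtain ⟨zb, -, hzb⟩ := hS ⊤ htop 0
  choose X hX using hf
  let Y : Fin l → (ι → U) → ι → U ⧸ K := fun t u k => q (lin (classVec g P t) U (X (u k)))
  have hw : ∀ t (u : ι → U) k, ∃ w : Fin h → U, lin f U w = 0 ∧
      q (lin (classVec g P t) U w) = if N t ≠ ⊥ then s t (Y t u) k - Y t u k else 0 := by
    intro t u k
    by_cases ht : N t ≠ ⊥
    · rw [if_pos ht]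
      obtain ⟨w, hw1, hw2⟩ := hs t (Finset.mem_filter.2 ⟨Finset.mem_univ _, ht⟩) (Y t u) k
      exact ⟨w, hw1, hw2⟩
    · rw [if_neg ht]
      exact ⟨0, map_zero _, by rw [map_zero, map_zero]⟩
  choose w hw1 hw2 using hw
  choose z hz using fun k => hqs (zb k)
  refine ⟨ι → U, inferInstance, inferInstance, inferInstance,
    fun t i u k => X (u k) i + w t u k i, z, ?_, ?_⟩
  · intro t u
    funext k
    rw [Finset.sum_apply]
    have h1 := hw1 t u k
    rw [lin_apply] at h1
    simp only [Pi.smul_apply, smul_add, Finset.sum_add_distrib]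
    rw [h1, add_zero, hX]
  · intro u hu
    rw [sum_classVec g P (fun t i u k => X (u k) i + w t u k i) u] at hu
    apply hzb
    refine ⟨fun t => Y t (u t), ?_⟩
    funext k
    have h1 : ∑ t, lin (classVec g P t) U (fun i => X (u t k) i + w t (u t) k i) = z k := by
      have := congrFun hu k
      simp only [Finset.sum_apply, Pi.smul_apply] at this
      exact this
    rw [← hz k, ← h1, map_sum, Finset.sum_apply, Finset.sum_filter]
    refine Finset.sum_congr rfl fun t _ => ?_
    by_cases ht : N t ≠ ⊥
    · rw [if_pos ht]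
      have h2 : (fun i => X (u t k) i + w t (u t) k i) = X (u t k) + w t (u t) k := rfl
      rw [h2, map_add, map_add, hw2, if_pos ht]
      show Y t (u t) k + (s t (Y t (u t)) k - Y t (u t) k) = _
      abel
    · rw [if_neg ht]
      exact hN t (not_not.1 ht) _

/-- **A pattern is avoidable if and only if it is closed.** -/
theorem avoidable_iff_closed {R : Type u} [Ring R] {h l : ℕ} (f : Fin h → R) (g : Fin l → R)
    (hl : 0 < l) (P : Fin l → Fin h × Fin l) : Avoidable R f g P ↔ Closed R f g P :=
  ⟨closed'_of_avoidable f g hl P, avoidable_of_closed' f g P⟩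

end Pool.Agent.H55.LF
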