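import Mathlib

/-!
# Two players who have to win one of many rounds

In every round each of two players gets a letter and gives an answer; `V` says when the round is
won.  Both players see all their own letters and nothing else.  If in a single round each of them
could always win if he knew the letter and the answer of the other one, then there are a number
of rounds and strategies such that at least one round is won.
-/

open Sum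

namespace Pool.Agent.H55.LF

universe u

/-- There are a finite set of rounds and strategies of the two players such that at least one round
is won, if all letters of the players are in `Z₁` and `Z₂`. -/
def Win {Y₁ Y₂ A₁ A₂ : Type u} (V : Y₁ → Y₂ → A₁ → A₂ → Prop) (Z₁ : Finset Y₁)
    (Z₂ : Finset Y₂) : Prop :=
  ∃ (ι : Type) (_ : Finite ι) (f₁ : (ι → Y₁) → ι → A₁) (f₂ : (ι → Y₂) → ι → A₂),
    ∀ (y₁ : ι → Y₁) (y₂ : ι → Y₂), (∀ i, y₁ i ∈ Z₁) → (∀ i, y₂ i ∈ Z₂) →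
      ∃ i, V (y₁ i) (y₂ i) (f₁ y₁ i) (f₂ y₂ i)

/-- The inductive step. -/
theorem win_step {Y₁ Y₂ A₁ A₂ : Type u} [DecidableEq Y₁] [DecidableEq Y₂]
    (V : Y₁ → Y₂ → A₁ → A₂ → Prop) (h₁ : ∀ y₁ y₂ a₂, ∃ a₁, V y₁ y₂ a₁ a₂)
    (h₂ : ∀ y₁ y₂ a₁, ∃ a₂, V y₁ y₂ a₁ a₂) (Z₁ : Finset Y₁) (Z₂ : Finset Y₂) (z₁ : Y₁) (z₂ : Y₂)
    (b₁ : A₁) (b₂ : A₂) (H₁ : Win V (Z₁.erase z₁) Z₂) (H₂ : Win V Z₁ (Z₂.erase z₂)) :
    Win V Z₁ Z₂ := by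
  classical
  obtain ⟨ι₁, _, f₁, f₂, hf⟩ := H₁
  obtain ⟨ι₂, _, g₁, g₂, hg⟩ := H₂
  have hr₁ : ∀ y₁, ∃ a₁, V y₁ z₂ a₁ b₂ := fun y₁ => h₁ y₁ z₂ b₂
  have hr₂ : ∀ y₂, ∃ a₂, V z₁ y₂ b₁ a₂ := fun y₂ => h₂ z₁ y₂ b₁
  choose r₁ hr₁ using hr₁
  choose r₂ hr₂ using hr₂
  let u₁ : (Bool × (ι₁ ⊕ ι₂) → Y₁) → Bool → Prop := fun y c => ∃ i, y (c, inl i) = z₁
  let u₂ : (Bool × (ι₁ ⊕ ι₂) → Y₂) → Bool → Prop := fun y c => ∃ i, y (c, inr i) = z₂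
  let d₁ : (Bool × (ι₁ ⊕ ι₂) → Y₁) → Bool → Prop := fun y c =>
    c = false ∧ u₁ y false ∧ u₁ y true
  let d₂ : (Bool × (ι₁ ⊕ ι₂) → Y₂) → Bool → Prop := fun y c =>
    c = true ∧ ¬ u₂ y false ∧ u₂ y true
  let F₁ : (Bool × (ι₁ ⊕ ι₂) → Y₁) → Bool × (ι₁ ⊕ ι₂) → A₁ := fun y p =>
    Sum.elim (fun i => if u₁ y p.1 then b₁ else f₁ (fun i => y (p.1, inl i)) i)
      (fun i => if d₁ y p.1 then r₁ (y (p.1, inr i)) else g₁ (fun i => y (p.1, inr i)) i) p.2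
  let F₂ : (Bool × (ι₁ ⊕ ι₂) → Y₂) → Bool × (ι₁ ⊕ ι₂) → A₂ := fun y p =>
    Sum.elim (fun i => if d₂ y p.1 then r₂ (y (p.1, inl i)) else f₂ (fun i => y (p.1, inl i)) i)
      (fun i => if u₂ y p.1 then b₂ else g₂ (fun i => y (p.1, inr i)) i) p.2
  refine ⟨Bool × (ι₁ ⊕ ι₂), inferInstance, F₁, F₂, ?_⟩
  intro y₁ y₂ hy₁ hy₂
  have F₁l : ∀ c i, F₁ y₁ (c, inl i) = if u₁ y₁ c then b₁ else f₁ (fun i => y₁ (c, inl i)) i :=
    fun _ _ => rfl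
  have F₁r : ∀ c i, F₁ y₁ (c, inr i) =
      if d₁ y₁ c then r₁ (y₁ (c, inr i)) else g₁ (fun i => y₁ (c, inr i)) i := fun _ _ => rfl
  have F₂l : ∀ c i, F₂ y₂ (c, inl i) =
      if d₂ y₂ c then r₂ (y₂ (c, inl i)) else f₂ (fun i => y₂ (c, inl i)) i := fun _ _ => rfl
  have F₂r : ∀ c i, F₂ y₂ (c, inr i) = if u₂ y₂ c then b₂ else g₂ (fun i => y₂ (c, inr i)) i :=
    fun _ _ => rfl
  -- the first player is safe
  have hA : ∀ c, ¬ u₁ y₁ c → ¬ d₂ y₂ c → ∃ p, V (y₁ p) (y₂ p) (F₁ y₁ p) (F₂ y₂ p) := by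
    intro c hu hd
    obtain ⟨i, hi⟩ := hf (fun i => y₁ (c, inl i)) (fun i => y₂ (c, inl i))
      (fun i => Finset.mem_erase.2 ⟨fun h => hu ⟨i, h⟩, hy₁ _⟩) (fun i => hy₂ _)
    refine ⟨(c, inl i), ?_⟩
    rw [F₁l, F₂l, if_neg hu, if_neg hd]
    exact hi
  -- the second player is safe
  have hB : ∀ c, ¬ u₂ y₂ c → ¬ d₁ y₁ c → ∃ p, V (y₁ p) (y₂ p) (F₁ y₁ p) (F₂ y₂ p) := by
    intro c hu hd
    obtain ⟨i, hi⟩ := hg (fun i => y₁ (c, inr i)) (fun i => y₂ (c, inr i))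
      (fun i => hy₁ _) (fun i => Finset.mem_erase.2 ⟨fun h => hu ⟨i, h⟩, hy₂ _⟩)
    refine ⟨(c, inr i), ?_⟩
    rw [F₁r, F₂r, if_neg hu, if_neg hd]
    exact hi
  -- the first player deviates
  have hC : ∀ c, d₁ y₁ c → u₂ y₂ c → ∃ p, V (y₁ p) (y₂ p) (F₁ y₁ p) (F₂ y₂ p) := by
    intro c hd hu
    obtain ⟨i, hi⟩ := id hu
    refine ⟨(c, inr i), ?_⟩
    rw [F₁r, F₂r, if_pos hu, if_pos hd, hi]
    exact hr₁ _
  -- the second player deviates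
  have hD : ∀ c, d₂ y₂ c → u₁ y₁ c → ∃ p, V (y₁ p) (y₂ p) (F₁ y₁ p) (F₂ y₂ p) := by
    intro c hd hu
    obtain ⟨i, hi⟩ := id hu
    refine ⟨(c, inl i), ?_⟩
    rw [F₁l, F₂l, if_pos hu, if_pos hd, hi]
    exact hr₂ _
  have ht₁ : ¬ d₁ y₁ true := fun h => by simpa using h.1
  have ht₂ : ¬ d₂ y₂ false := fun h => by simpa using h.1
  by_cases h0 : u₁ y₁ false ∧ u₁ y₁ true
  · by_cases h1 : u₂ y₂ false
    · exact hC false ⟨rfl, h0⟩ h1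
    · by_cases h2 : u₂ y₂ true
      · exact hD true ⟨rfl, h1, h2⟩ h0.2
      · exact hB true h2 ht₁
  · have hn₁ : ∀ c, ¬ d₁ y₁ c := fun c h => h0 h.2
    by_cases h1 : u₂ y₂ false
    · have hn₂ : ∀ c, ¬ d₂ y₂ c := fun c h => h.2.1 h1
      by_cases h2 : u₁ y₁ false
      · exact hA true (fun h3 => h0 ⟨h2, h3⟩) (hn₂ _)
      · exact hA false h2 (hn₂ _)
    · exact hB false h1 (hn₁ _)

/-- **Two players can win one of many rounds.** -/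
theorem win_all {Y₁ Y₂ A₁ A₂ : Type u} [Nonempty A₁] [Nonempty A₂]
    (V : Y₁ → Y₂ → A₁ → A₂ → Prop) (h₁ : ∀ y₁ y₂ a₂, ∃ a₁, V y₁ y₂ a₁ a₂)
    (h₂ : ∀ y₁ y₂ a₁, ∃ a₂, V y₁ y₂ a₁ a₂) (Z₁ : Finset Y₁) (Z₂ : Finset Y₂) :
    Win V Z₁ Z₂ := by
  classical
  obtain ⟨b₁⟩ := ‹Nonempty A₁›
  obtain ⟨b₂⟩ := ‹Nonempty A₂›
  induction hn : Z₁.card + Z₂.card using Nat.strong_induction_on generalizing Z₁ Z₂ with
  | _ n ih =>
    rcases Z₁.eq_empty_or_nonempty with h | ⟨z₁, hz₁⟩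
    · subst h
      exact ⟨Unit, inferInstance, fun _ _ => b₁, fun _ _ => b₂, fun y₁ y₂ h _ => by
        simpa using h ()⟩
    · rcases Z₂.eq_empty_or_nonempty with h | ⟨z₂, hz₂⟩
      · subst h
        exact ⟨Unit, inferInstance, fun _ _ => b₁, fun _ _ => b₂, fun y₁ y₂ _ h => by
          simpa using h ()⟩
      · have c₁ := Finset.card_erase_lt_of_mem hz₁
        have c₂ := Finset.card_erase_lt_of_mem hz₂
        exact win_step V h₁ h₂ Z₁ Z₂ z₁ z₂ b₁ b₂ (ih _ (by omega) _ _ rfl)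
          (ih _ (by omega) _ _ rfl)

end Pool.Agent.H55.LF
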