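import Pool.Agent.H55.LF.Crit

/-!
# Closed patterns in terms of right submodules of a free module
-/

set_option autoImplicit false

open Finset

namespace Pool.Agent.H55.LF

open Pool.Agent.TH282.LF

universe u

/-- The circle in which characters take their values. -/
abbrev Circ : Type := AddCircle (1 : ℚ)

lemma exists_char {A : Type u} [AddCommGroup A] (B : AddSubgroup A) {a : A} (ha : a ∉ B) :
    ∃ c : A →+ Circ, (∀ b ∈ B, c b = 0) ∧ c a ≠ 0 := by
  have h1 : QuotientAddGroup.mk' B a ≠ 0 := by
    intro h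
    exact ha ((QuotientAddGroup.eq_zero_iff a).1 h)
  obtain ⟨c, hc⟩ := CharacterModule.exists_character_apply_ne_zero_of_ne_zero h1
  let c' : A ⧸ B →+ Circ := c
  refine ⟨c'.comp (QuotientAddGroup.mk' B), fun b hb => ?_, hc⟩
  have h2 : QuotientAddGroup.mk' B b = 0 := (QuotientAddGroup.eq_zero_iff b).2 hb
  rw [AddMonoidHom.comp_apply, h2, map_zero]

lemma exists_ext {A B : Type u} [AddCommGroup A] [AddCommGroup B] (j : A →+ B)
    (hj : Function.Injective j) (c : A →+ Circ) : ∃ d : B →+ Circ, ∀ a, d (j a) = c a := by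
  obtain ⟨d, hd⟩ := CharacterModule.dual_surjective_of_injective (R := ℤ)
    (AddMonoidHom.toIntLinearMap j) hj c
  exact ⟨d, fun a => DFunLike.congr_fun hd a⟩

lemma finite_char (A : Type u) [AddCommGroup A] [Finite A] : Finite (A →+ Circ) := by
  classical
  have hpos : 0 < Nat.card A := Nat.card_pos
  have hfin : Finite {x : Circ | Nat.card A • x = 0} :=
    (AddCircle.finite_torsion (1 : ℚ) hpos).to_subtype
  refine Finite.of_injective (fun (c : A →+ Circ) (a : A) =>
    (⟨c a, by
      show Nat.card A • c a = 0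
      rw [← map_nsmul, card_nsmul_eq_zero', map_zero]⟩ : {x : Circ | Nat.card A • x = 0})) ?_
  intro c d hcd
  ext a
  exact congrArg Subtype.val (congrFun hcd a)

/-- The pattern `P` is closed from the right: there is a proper right submodule `N` of finite index
of `R ^ l` such that `v` is in `N` as soon as all `v * f i` are, and such that for every class `t`
the following holds: if for every unit vector `e` there is a vector `v` with all
`e * γ i - v * f i` in `N`, where `γ` is the class vector, then all `e * γ i` are in `N`. -/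
def ClosedRight (R : Type u) [Ring R] {h l : ℕ} (f : Fin h → R) (g : Fin l → R)
    (P : Fin l → Fin h × Fin l) : Prop :=
  ∃ N : AddSubgroup (Fin l → R), (∀ v ∈ N, ∀ r : R, (fun s => v s * r) ∈ N) ∧ N ≠ ⊤ ∧
    Finite ((Fin l → R) ⧸ N) ∧
    (∀ v : Fin l → R, (∀ i, (fun s => v s * f i) ∈ N) → v ∈ N) ∧
    ∀ t, (∀ s, ∃ v : Fin l → R, ∀ i,
        (Pi.single s (classVec g P t i) - fun r => v r * f i : Fin l → R) ∈ N) →
      ∀ s i, (Pi.single s (classVec g P t i) : Fin l → R) ∈ N

theorem closedRight_of_closed {R : Type u} [Ring R] {h l : ℕ} (f : Fin h → R) (g : Fin l → R)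
    (hl : 0 < l) (P : Fin l → Fin h × Fin l) (H : Closed R f g P) : ClosedRight R f g P := by
  classical
  obtain ⟨U, _, _, _, K, hK, hf, hcl⟩ := H
  have hex : ∀ t, ∃ c : U →+ Circ, (∀ k ∈ K, c k = 0) ∧ (∃ u, c u ≠ 0) ∧
      ((∃ x, lin (classVec g P t) U x ∉ K) →
        ∃ x, lin f U x = 0 ∧ c (lin (classVec g P t) U x) ≠ 0) := by
    intro t
    by_cases ht : ∃ x, lin (classVec g P t) U x ∉ K
    · have h1 : ∃ x, lin f U x = 0 ∧ lin (classVec g P t) U x ∉ K := by
        by_contra hno
        push Not at hno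
        obtain ⟨x, hx⟩ := ht
        exact hx (hcl t hno x)
      obtain ⟨x, hx1, hx2⟩ := h1
      obtain ⟨c, hc1, hc2⟩ := exists_char K hx2
      exact ⟨c, hc1, ⟨_, hc2⟩, fun _ => ⟨x, hx1, hc2⟩⟩
    · obtain ⟨u, hu⟩ : ∃ u, u ∉ K := by
        by_contra hno
        push Not at hno
        exact hK (eq_top_iff.2 fun u _ => hno u)
      obtain ⟨c, hc1, hc2⟩ := exists_char K hu
      exact ⟨c, hc1, ⟨u, hc2⟩, fun h => absurd h ht⟩
  choose c hc1 hc2 hc3 using hex
  let N : AddSubgroup (Fin l → R) :=
    { carrier := {v | ∀ u : U, ∑ s, c s (v s • u) = 0}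
      zero_mem' := fun u => by simp
      add_mem' := fun {a b} ha hb u => by
        have : ∑ s, c s ((a + b) s • u) = ∑ s, c s (a s • u) + ∑ s, c s (b s • u) := by
          rw [← Finset.sum_add_distrib]
          exact Finset.sum_congr rfl fun s _ => by rw [Pi.add_apply, add_smul, map_add]
        rw [this, ha u, hb u, add_zero]
      neg_mem' := fun {a} ha u => by
        have : ∑ s, c s ((-a) s • u) = -∑ s, c s (a s • u) := by
          rw [← Finset.sum_neg_distrib]
          exact Finset.sum_congr rfl fun s _ => by rw [Pi.neg_apply, neg_smul, map_neg]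
        rw [this, ha u, neg_zero] }
  have hN : ∀ v : Fin l → R, v ∈ N ↔ ∀ u : U, ∑ s, c s (v s • u) = 0 := fun v => Iff.rfl
  have hsing : ∀ (s : Fin l) (r : R) (u : U),
      ∑ s', c s' ((Pi.single s r : Fin l → R) s' • u) = c s (r • u) := by
    intro s r u
    rw [Finset.sum_eq_single s]
    · rw [Pi.single_eq_same]
    · intro s' _ hs'
      rw [Pi.single_eq_of_ne hs', zero_smul, map_zero]
    · intro h0
      exact absurd (Finset.mem_univ _) h0
  refine ⟨N, ?_, ?_, ?_, ?_, ?_⟩
  · intro v hv r u
    have := hv (r • u)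
    simpa only [mul_smul] using this
  · intro h0
    obtain ⟨u, hu⟩ := hc2 ⟨0, hl⟩
    apply hu
    have h1 : (Pi.single ⟨0, hl⟩ (1 : R) : Fin l → R) ∈ N := by rw [h0]; trivial
    have h2 := (hN _).1 h1 u
    rwa [hsing, one_smul] at h2
  · let φ : (Fin l → R) → Fin l → U → U := fun v s u => v s • u
    have hφ : ∀ v w, φ v = φ w → v - w ∈ N := by
      intro v w hvw
      rw [hN]
      intro u
      refine Finset.sum_eq_zero fun s _ => ?_
      have : v s • u = w s • u := congrFun (congrFun hvw s) u
      rw [Pi.sub_apply, sub_smul, this, sub_self, map_zero]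
    have hfin : Finite (Set.range φ) := inferInstance
    refine Finite.of_surjective (fun y : Set.range φ => QuotientAddGroup.mk' N y.2.choose) ?_
    intro x
    obtain ⟨v, rfl⟩ := QuotientAddGroup.mk'_surjective N x
    refine ⟨⟨φ v, v, rfl⟩, ?_⟩
    have h1 : φ (⟨v, rfl⟩ : ∃ w, φ w = φ v).choose = φ v := (⟨v, rfl⟩ : ∃ w, φ w = φ v).choose_spec
    have h2 := hφ _ _ h1
    have h3 := (QuotientAddGroup.eq_zero_iff (N := N) _).2 h2
    have h4 : QuotientAddGroup.mk' N ((⟨v, rfl⟩ : ∃ w, φ w = φ v).choose - v) = 0 := h3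
    rw [map_sub, sub_eq_zero] at h4
    exact h4
  · intro v hv
    rw [hN]
    intro u
    obtain ⟨x, rfl⟩ := hf u
    have h1 : ∑ s, c s (v s • ∑ i, f i • x i) = ∑ i, ∑ s, c s ((v s * f i) • x i) := by
      rw [Finset.sum_comm]
      refine Finset.sum_congr rfl fun s _ => ?_
      rw [Finset.smul_sum, map_sum]
      exact Finset.sum_congr rfl fun i _ => by rw [mul_smul]
    rw [h1]
    exact Finset.sum_eq_zero fun i _ => (hN _).1 (hv i) (x i)
  · intro t ht
    by_cases hT : ∃ x, lin (classVec g P t) U x ∉ K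
    · exfalso
      obtain ⟨x, hx1, hx2⟩ := hc3 t hT
      obtain ⟨v, hv⟩ := ht t
      apply hx2
      have h1 : ∀ i, c t (classVec g P t i • x i) = ∑ s, c s ((v s * f i) • x i) := by
        intro i
        have h2 := (hN _).1 (hv i) (x i)
        have h3 : ∑ s, c s ((Pi.single t (classVec g P t i) - fun r => v r * f i : Fin l → R) s •
            x i) = ∑ s, c s ((Pi.single t (classVec g P t i) : Fin l → R) s • x i) -
              ∑ s, c s ((v s * f i) • x i) := by
          rw [← Finset.sum_sub_distrib]
          exact Finset.sum_congr rfl fun s _ => by rw [Pi.sub_apply, sub_smul, map_sub]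
        rw [h3, hsing, sub_eq_zero] at h2
        exact h2
      rw [lin_apply, map_sum]
      calc ∑ i, c t (classVec g P t i • x i) = ∑ i, ∑ s, c s ((v s * f i) • x i) :=
            Finset.sum_congr rfl fun i _ => h1 i
        _ = ∑ s, c s (v s • ∑ i, f i • x i) := by
            rw [Finset.sum_comm]
            refine Finset.sum_congr rfl fun s _ => ?_
            rw [Finset.smul_sum, map_sum]
            exact Finset.sum_congr rfl fun i _ => by rw [mul_smul]
        _ = 0 := by
            have : ∑ i, f i • x i = 0 := hx1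
            rw [this]
            exact Finset.sum_eq_zero fun s _ => by rw [smul_zero, map_zero]
    · push Not at hT
      intro s i
      rw [hN]
      intro u
      rw [hsing]
      apply hc1 s
      have h1 := hT (Pi.single i u)
      rw [lin_apply, Finset.sum_eq_single i] at h1
      · rwa [Pi.single_eq_same] at h1
      · intro j _ hj
        rw [Pi.single_eq_of_ne hj, smul_zero]
      · intro h0
        exact absurd (Finset.mem_univ _) h0

section dual

variable {R : Type u} [Ring R] {l : ℕ}

/-- The characters of the quotient of `R ^ l` by a subgroup. -/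
def DU (N : AddSubgroup (Fin l → R)) : Type u := ((Fin l → R) ⧸ N) →+ Circ

instance (N : AddSubgroup (Fin l → R)) : AddCommGroup (DU N) :=
  inferInstanceAs (AddCommGroup (((Fin l → R) ⧸ N) →+ Circ))

/-- The character as a homomorphism. -/
def DU.hom {N : AddSubgroup (Fin l → R)} (φ : DU N) : ((Fin l → R) ⧸ N) →+ Circ := φ

/-- The value of a character at the class of a vector. -/
def ev {N : AddSubgroup (Fin l → R)} (v : Fin l → R) : DU N →+ Circ where
  toFun φ := φ.hom (QuotientAddGroup.mk' N v)
  map_zero' := rfl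
  map_add' _ _ := rfl

lemma DU_ext {N : AddSubgroup (Fin l → R)} {φ ψ : DU N} (h : ∀ v, ev v φ = ev v ψ) : φ = ψ := by
  have h1 : φ.hom = ψ.hom := by
    refine AddMonoidHom.ext fun x => ?_
    obtain ⟨v, rfl⟩ := QuotientAddGroup.mk'_surjective N x
    exact h v
  exact h1

/-- Right multiplication on the quotient. -/
def rmul (N : AddSubgroup (Fin l → R)) (hN : ∀ v ∈ N, ∀ r : R, (fun s => v s * r) ∈ N) (r : R) :
    ((Fin l → R) ⧸ N) →+ ((Fin l → R) ⧸ N) :=
  QuotientAddGroup.map N N
    { toFun := fun v s => v s * r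
      map_zero' := by funext s; simp
      map_add' := fun v w => by funext s; simp [add_mul] } (fun v hv => hN v hv r)

/-- The module of the characters of the quotient of `R ^ l` by a right submodule. -/
@[reducible] def DUmod (N : AddSubgroup (Fin l → R))
    (hN : ∀ v ∈ N, ∀ r : R, (fun s => v s * r) ∈ N) : Module R (DU N) where
  smul r φ := AddMonoidHom.comp φ.hom (rmul N hN r)
  one_smul φ := by
    refine DU_ext fun v => ?_
    show φ.hom (QuotientAddGroup.mk' N fun s => v s * 1) =
      φ.hom (QuotientAddGroup.mk' N v)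
    simp only [mul_one]
  mul_smul a b φ := by
    refine DU_ext fun v => ?_
    show φ.hom (QuotientAddGroup.mk' N fun s => v s * (a * b)) =
      φ.hom (QuotientAddGroup.mk' N fun s => v s * a * b)
    simp only [mul_assoc]
  smul_zero a := rfl
  smul_add a φ ψ := rfl
  add_smul a b φ := by
    refine DU_ext fun v => ?_
    show φ.hom (QuotientAddGroup.mk' N fun s => v s * (a + b)) =
      φ.hom (QuotientAddGroup.mk' N fun s => v s * a) +
        φ.hom (QuotientAddGroup.mk' N fun s => v s * b)
    rw [← map_add, ← map_add]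
    congr 2
    funext s
    exact mul_add _ _ _
  zero_smul φ := by
    refine DU_ext fun v => ?_
    show φ.hom (QuotientAddGroup.mk' N fun s => v s * 0) = 0
    have : (fun s => v s * 0 : Fin l → R) = 0 := by funext s; simp
    rw [this, map_zero, map_zero]

end dual

theorem closed_of_closedRight {R : Type u} [Ring R] {h l : ℕ} (f : Fin h → R) (g : Fin l → R)
    (P : Fin l → Fin h × Fin l) (H : ClosedRight R f g P) : Closed R f g P := by
  classical
  obtain ⟨N, hN, hNt, hfin, hf, hcl⟩ := H
  let _ : Module R (DU N) := DUmod N hN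
  have hsm : ∀ (r : R) (φ : DU N) (v : Fin l → R), ev v (r • φ) = ev (fun s => v s * r) φ :=
    fun r φ v => rfl
  have hev0 : ∀ v ∈ N, ∀ φ : DU N, ev v φ = 0 := by
    intro v hv φ
    show φ.hom (QuotientAddGroup.mk' N v) = 0
    have h1 : QuotientAddGroup.mk' N v = 0 := (QuotientAddGroup.eq_zero_iff v).2 hv
    rw [h1, map_zero]
  have hlin : ∀ (c : Fin h → R) (x : Fin h → DU N) (v : Fin l → R),
      ev v (∑ i, c i • x i) = ∑ i, ev (fun s => v s * c i) (x i) := by
    intro c x v
    rw [map_sum]
    exact Finset.sum_congr rfl fun i _ => hsm _ _ _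
  have hone : ∀ (s : Fin l) (r : R), (fun s' => (Pi.single s (1 : R) : Fin l → R) s' * r) =
      (Pi.single s r : Fin l → R) := by
    intro s r
    funext s'
    by_cases hs : s' = s
    · subst hs
      rw [Pi.single_eq_same, Pi.single_eq_same, one_mul]
    · rw [Pi.single_eq_of_ne hs, Pi.single_eq_of_ne hs, zero_mul]
  let K : AddSubgroup (DU N) :=
    { carrier := {φ | ∀ s, ev (Pi.single s 1) φ = 0}
      zero_mem' := fun s => map_zero _
      add_mem' := fun {a b} ha hb s => by rw [map_add, ha s, hb s, add_zero]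
      neg_mem' := fun {a} ha s => by rw [map_neg, ha s, neg_zero] }
  have hKm : ∀ φ : DU N, φ ∈ K ↔ ∀ s, ev (Pi.single s 1) φ = 0 := fun φ => Iff.rfl
  -- the map `v ↦ (v * f i)`
  let j : ((Fin l → R) ⧸ N) →+ (Fin h → (Fin l → R) ⧸ N) :=
    { toFun := fun m i => rmul N hN (f i) m
      map_zero' := by funext i; exact map_zero _
      map_add' := fun a b => by funext i; exact map_add _ _ _ }
  have hjm : ∀ (v : Fin l → R) i, j (QuotientAddGroup.mk' N v) i =
      QuotientAddGroup.mk' N fun s => v s * f i := fun v i => rfl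
  have hjinj : Function.Injective j := by
    rw [injective_iff_map_eq_zero]
    intro x hx
    obtain ⟨v, rfl⟩ := QuotientAddGroup.mk'_surjective N x
    refine (QuotientAddGroup.eq_zero_iff v).2 (hf v fun i => ?_)
    have h1 : j (QuotientAddGroup.mk' N v) i = 0 := by rw [hx]; rfl
    rw [hjm] at h1
    exact (QuotientAddGroup.eq_zero_iff _).1 h1
  -- components of a character of the power
  let comp : ((Fin h → (Fin l → R) ⧸ N) →+ Circ) → Fin h → DU N := fun Φ i =>
    Φ.comp (AddMonoidHom.single (fun _ : Fin h => (Fin l → R) ⧸ N) i)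
  have hcomp : ∀ (Φ : (Fin h → (Fin l → R) ⧸ N) →+ Circ) (y : Fin h → Fin l → R),
      ∑ i, ev (y i) (comp Φ i) = Φ fun i => QuotientAddGroup.mk' N (y i) := by
    intro Φ y
    have h1 : (fun i => QuotientAddGroup.mk' N (y i)) =
        ∑ i, Pi.single (M := fun _ : Fin h => (Fin l → R) ⧸ N) i (QuotientAddGroup.mk' N (y i)) :=
      (Finset.univ_sum_single _).symm
    rw [h1, map_sum]
    rfl
  refine ⟨DU N, inferInstance, DUmod N hN, finite_char _, K, ?_, ?_, ?_⟩
  · intro h0
    have h1 : ∀ s, (Pi.single s (1 : R) : Fin l → R) ∈ N := by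
      intro s
      by_contra hs
      obtain ⟨c, -, hc⟩ := exists_char (A := (Fin l → R) ⧸ N) ⊥
        (a := QuotientAddGroup.mk' N (Pi.single s (1 : R))) (by
          rw [AddSubgroup.mem_bot]
          exact fun h => hs ((QuotientAddGroup.eq_zero_iff _).1 h))
      have h2 : (c : DU N) ∈ K := by rw [h0]; trivial
      exact hc ((hKm _).1 h2 s)
    apply hNt
    rw [eq_top_iff]
    intro v _
    have h2 : v = ∑ s, (Pi.single s (v s) : Fin l → R) := (Finset.univ_sum_single v).symm
    rw [h2]
    refine sum_mem fun s _ => ?_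
    rw [← hone s (v s)]
    exact hN _ (h1 s) _
  · intro φ
    obtain ⟨Φ, hΦ⟩ := exists_ext j hjinj φ
    refine ⟨comp Φ, DU_ext fun v => ?_⟩
    rw [hlin, hcomp Φ fun i s => v s * f i]
    exact hΦ (QuotientAddGroup.mk' N v)
  · intro t ht x
    have h1 : ∀ s i, (Pi.single s (classVec g P t i) : Fin l → R) ∈ N := by
      apply hcl t
      intro s
      have h2 : (fun i => QuotientAddGroup.mk' N (Pi.single s (classVec g P t i))) ∈ j.range := by
        by_contra hno
        obtain ⟨Ψ, hΨ1, hΨ2⟩ := exists_char j.range hno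
        apply hΨ2
        have h3 := ht (comp Ψ) (DU_ext fun v => by
          rw [hlin, hcomp Ψ fun i s => v s * f i, map_zero]
          exact hΨ1 _ ⟨QuotientAddGroup.mk' N v, rfl⟩)
        have h4 := (hKm _).1 h3 s
        rw [hlin] at h4
        simp only [hone] at h4
        rwa [hcomp Ψ fun i => Pi.single s (classVec g P t i)] at h4
      obtain ⟨m, hm⟩ := h2
      obtain ⟨v, rfl⟩ := QuotientAddGroup.mk'_surjective N m
      refine ⟨v, fun i => ?_⟩
      have h3 := congrFun hm i
      rw [hjm] at h3
      have h4 : QuotientAddGroup.mk' N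
          (Pi.single s (classVec g P t i) - fun r => v r * f i : Fin l → R) = 0 := by
        rw [map_sub, ← h3, sub_self]
      exact (QuotientAddGroup.eq_zero_iff _).1 h4
    rw [hKm]
    intro s
    rw [hlin]
    refine Finset.sum_eq_zero fun i _ => ?_
    rw [hone]
    exact hev0 _ (h1 s i) _

/-- **The two criteria are equivalent.** -/
theorem closed_iff_closedRight {R : Type u} [Ring R] {h l : ℕ} (f : Fin h → R) (g : Fin l → R)
    (hl : 0 < l) (P : Fin l → Fin h × Fin l) : Closed R f g P ↔ ClosedRight R f g P :=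
  ⟨closedRight_of_closed f g hl P, closed_of_closedRight f g P⟩

end Pool.Agent.H55.LF
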