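import Pool.Agent.H55.LF.Game

/-!
# Moving every summand by elements of a nonzero subgroup, the sums do not fill a power of the group
-/

open Finset

namespace Pool.Agent.H55.LF

universe u

/-- A set `S` of functions from `ι` to a group is small if for every nonzero subgroup `N` and every
function `g` there is a function outside `S` which is pointwise congruent to `g` modulo `N`. -/
def Small {G : Type u} [AddCommGroup G] {ι : Type} (S : Set (ι → G)) : Prop :=
  ∀ N : AddSubgroup G, N ≠ ⊥ → ∀ g : ι → G, ∃ x : ι → G, (∀ i, x i - g i ∈ N) ∧ x ∉ S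

/-- **Strategies with small sums.**  For nonzero subgroups `N t` of a finite commutative group `G`
there are a finite set `ι` and maps `s t` of `ι → G` to itself which move every point only by
elements of `N t` and such that the set of all sums `∑ t, s t (x t)` is small. -/
theorem exists_small {G : Type u} [AddCommGroup G] [Finite G] {l : ℕ}
    (N : Fin l → AddSubgroup G) (T : Finset (Fin l)) (hT : ∀ t ∈ T, N t ≠ ⊥) :
    ∃ (ι : Type) (_ : Finite ι) (s : Fin l → (ι → G) → ι → G),
      (∀ t ∈ T, ∀ x i, s t x i - x i ∈ N t) ∧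
        Small {y : ι → G | ∃ x : Fin l → ι → G, y = ∑ t ∈ T, s t (x t)} := by
  classical
  induction T using Finset.induction_on with
  | empty =>
    refine ⟨Unit, inferInstance, fun _ x => x, by simp, ?_⟩
    intro M hM g
    obtain ⟨⟨n, hn⟩, hn'⟩ := AddSubgroup.ne_bot_iff_exists_ne_zero.1 hM
    have hn0 : n ≠ 0 := fun h => hn' (Subtype.ext h)
    by_cases hg : g = 0
    · refine ⟨fun _ => n, fun i => by rw [hg]; simpa using hn, ?_⟩
      rintro ⟨x, hx⟩
      apply hn0
      simpa using congrFun hx ()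
    · refine ⟨g, fun i => by simp, ?_⟩
      rintro ⟨x, hx⟩
      exact hg (by simpa using hx)
  | insert t₀ T ht₀ ih =>
    obtain ⟨ι, _, s, hs, hS⟩ := ih fun t ht => hT t (Finset.mem_insert_of_mem ht)
    have hN : N t₀ ≠ ⊥ := hT t₀ (Finset.mem_insert_self _ _)
    set S₀ : Set (ι → G) := {y : ι → G | ∃ x : Fin l → ι → G, y = ∑ t ∈ T, s t (x t)} with hS₀
    -- the game for one subgroup
    have game : ∀ M : {M : AddSubgroup G // M ≠ ⊥}, ∃ (κ : Type) (_ : Finite κ)
        (f₁ : (κ → ι → G) → κ → ι → G) (f₂ : (κ → ι → G) → κ → ι → G),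
        (∀ y k i, f₁ y k i ∈ N t₀) ∧ (∀ y k i, f₂ y k i ∈ M.1) ∧
        ∀ y₁ y₂ : κ → ι → G, ∃ k, (y₂ k + f₂ y₂ k) - (y₁ k + f₁ y₁ k) ∉ S₀ := by
      intro M
      have : Fintype (ι → G) := Fintype.ofFinite _
      have : Nonempty {a : ι → G // ∀ i, a i ∈ N t₀} := ⟨⟨0, fun i => (N t₀).zero_mem⟩⟩
      have : Nonempty {a : ι → G // ∀ i, a i ∈ M.1} := ⟨⟨0, fun i => M.1.zero_mem⟩⟩
      obtain ⟨κ, hκ, f₁, f₂, hf⟩ := win_all
        (fun (y₁ y₂ : ι → G) (a₁ : {a : ι → G // ∀ i, a i ∈ N t₀})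
          (a₂ : {a : ι → G // ∀ i, a i ∈ M.1}) => (y₂ + a₂.1) - (y₁ + a₁.1) ∉ S₀)
        (fun y₁ y₂ a₂ => by
          obtain ⟨x, hx, hxS⟩ := hS (N t₀) hN ((y₂ + a₂.1) - y₁)
          refine ⟨⟨(y₂ + a₂.1) - y₁ - x, fun i => ?_⟩, ?_⟩
          · have := (N t₀).neg_mem (hx i)
            simpa using this
          · have : (y₂ + a₂.1) - (y₁ + ((y₂ + a₂.1) - y₁ - x)) = x := by abel
            show (y₂ + a₂.1) - (y₁ + ((y₂ + a₂.1) - y₁ - x)) ∉ S₀
            rw [this]
            exact hxS)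
        (fun y₁ y₂ a₁ => by
          obtain ⟨x, hx, hxS⟩ := hS M.1 M.2 (y₂ - (y₁ + a₁.1))
          refine ⟨⟨x - (y₂ - (y₁ + a₁.1)), fun i => ?_⟩, ?_⟩
          · simpa using hx i
          · have : (y₂ + (x - (y₂ - (y₁ + a₁.1)))) - (y₁ + a₁.1) = x := by abel
            show (y₂ + (x - (y₂ - (y₁ + a₁.1)))) - (y₁ + a₁.1) ∉ S₀
            rw [this]
            exact hxS)
        Finset.univ Finset.univ
      exact ⟨κ, hκ, fun y k => (f₁ y k).1, fun y k => (f₂ y k).1, fun y k i => (f₁ y k).2 i,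
        fun y k i => (f₂ y k).2 i, fun y₁ y₂ => hf y₁ y₂ (fun _ => mem_univ _)
          (fun _ => mem_univ _)⟩
    have : Finite {M : AddSubgroup G // M ≠ ⊥} := inferInstance
    obtain ⟨m, ⟨e⟩⟩ := Finite.exists_equiv_fin {M : AddSubgroup G // M ≠ ⊥}
    choose κ hκ f₁ f₂ hf₁ hf₂ hf using fun j : Fin m => game (e.symm j)
    refine ⟨Σ j : Fin m, κ j × ι, inferInstance, fun t x p =>
      if t = t₀ then x p + f₁ p.1 (fun k i => x ⟨p.1, k, i⟩) p.2.1 p.2.2
      else s t (fun i => x ⟨p.1, p.2.1, i⟩) p.2.2, ?_, ?_⟩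
    · intro t ht x p
      by_cases h : t = t₀
      · subst h
        simp only [if_true, add_sub_cancel_left]
        exact hf₁ _ _ _ _
      · simp only [if_neg h]
        exact hs t ((Finset.mem_insert.1 ht).resolve_left h) _ _
    · intro M hM g
      set j := e ⟨M, hM⟩ with hj
      have hej : (e.symm j).1 = M := by rw [hj, Equiv.symm_apply_apply]
      refine ⟨fun p => g p + if p.1 = j then f₂ p.1 (fun k i => g ⟨p.1, k, i⟩) p.2.1 p.2.2 else 0,
        ?_, ?_⟩
      · intro p
        by_cases h : p.1 = j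
        · simp only [if_pos h, add_sub_cancel_left]
          have h1 := hf₂ p.1 (fun k i => g ⟨p.1, k, i⟩) p.2.1 p.2.2
          have h2 : (e.symm p.1).1 = M := by rw [h, hej]
          rwa [h2] at h1
        · simp only [if_neg h, add_zero, sub_self]
          exact M.zero_mem
      · rintro ⟨x, hx⟩
        obtain ⟨k, hk⟩ := hf j (fun k i => x t₀ ⟨j, k, i⟩) (fun k i => g ⟨j, k, i⟩)
        apply hk
        refine ⟨fun t i => x t ⟨j, k, i⟩, ?_⟩
        funext i
        have h1 := congrFun hx ⟨j, k, i⟩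
        rw [Finset.sum_insert ht₀] at h1
        simp only [if_true, Pi.add_apply, Finset.sum_apply] at h1
        simp only [Pi.sub_apply, Pi.add_apply, Finset.sum_apply]
        rw [h1, add_sub_cancel_left]
        refine Finset.sum_congr rfl fun t ht => ?_
        have h2 : t ≠ t₀ := fun h => ht₀ (by rwa [h] at ht)
        simp only [if_neg h2]

end Pool.Agent.H55.LF
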